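import Pool.Agent.KS6_83.DQ.B

/-!
# Dicyclic quotients of CA-groups by abelian normal subgroups (MP_427463_al)

The library shows that every generalized quaternion group of order `2 ^ n` is the quotient of a
profinite CA-group by an abelian normal subgroup.  Here the dicyclic groups `Q_{4k}` (Mathlib's
`QuaternionGroup k`, the generalized quaternion groups being the case `k = 2 ^ e`) are classified:
`Q_{4k}` is such a quotient if and only if `k` is a power of two.  The negative part holds for all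
abstract CA-groups, and comes from an obstruction: the quotient of a CA-group by an abelian normal
subgroup contains no elements `b`, `y` with `b ^ 4 = 1 ≠ b ^ 2`, `b y b⁻¹ = y⁻¹`, and `y ≠ 1` of odd
order (so no dicyclic group of order `4p` with `p` an odd prime, and the binary octahedral and
icosahedral groups are no such quotients).
-/

set_option autoImplicit false

universe u

open Pool.Agent.KS6_83.DQ in
/-- (1) For `k ≥ 1` there is a profinite CA-group `Γ` with an abelian closed and open normal subgroup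
`N` such that `Γ / N` is the dicyclic group of order `4 k` if and only if `k` is a power of two.
(2) If `Γ` is any CA-group with an abelian normal subgroup `N` such that `Γ / N` is the dicyclic group
of order `4 k`, `k ≥ 1`, then `k` is a power of two.  (3) If `Γ` is any CA-group and `N` an abelian
normal subgroup, then `Γ / N` has no elements `b`, `y` with `b ^ 4 = 1 ≠ b ^ 2`, `y ≠ 1`, `y ^ p = 1`
for an odd number `p`, and `b y b⁻¹ = y⁻¹`. -/
theorem Pool.Agent.Results.MP_427463_al.DicyclicQuotients.result :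
    (∀ k : ℕ, k ≠ 0 →
      ((∃ (Γ : Type) (_ : Group Γ) (_ : TopologicalSpace Γ) (_ : IsTopologicalGroup Γ)
        (_ : CompactSpace Γ) (_ : T2Space Γ) (_ : TotallyDisconnectedSpace Γ), IsCA Γ ∧
        ∃ (N : Subgroup Γ) (_ : N.Normal), IsClosed (N : Set Γ) ∧ IsOpen (N : Set Γ) ∧
          (∀ x ∈ N, ∀ y ∈ N, x * y = y * x) ∧ Nonempty (Γ ⧸ N ≃* QuaternionGroup k)) ↔
        ∃ e : ℕ, k = 2 ^ e)) ∧
    (∀ (Γ : Type u) [Group Γ] (N : Subgroup Γ) [N.Normal], IsCA Γ →
      (∀ x ∈ N, ∀ y ∈ N, x * y = y * x) →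
      (∀ k : ℕ, k ≠ 0 → Nonempty (Γ ⧸ N ≃* QuaternionGroup k) → ∃ e : ℕ, k = 2 ^ e) ∧
      ¬ ∃ (b y : Γ ⧸ N) (p : ℕ), b ^ 4 = 1 ∧ b ^ 2 ≠ 1 ∧ y ≠ 1 ∧ Odd p ∧ y ^ p = 1 ∧
        b * y * b⁻¹ = y⁻¹) := by
  refine ⟨fun k hk => ⟨?_, ?_⟩, fun Γ _ N _ hG hab => ⟨fun k hk ⟨f⟩ => dicyclic N hG hab k hk f, ?_⟩⟩
  · rintro ⟨Γ, i1, i2, i3, i4, i5, i6, h, N, i7, -, -, h3, ⟨f⟩⟩
    exact dicyclic N h h3 k hk f
  · rintro ⟨e, rfl⟩
    exact powers e
  · rintro ⟨b, y, p, h1, h2, h3, h4, h5, h6⟩
    exact obstruction N hG hab b y h1 h2 h3 p h4 h5 h6
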